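import Pool.Agent.Helper75.PY.Stmts2

set_option autoImplicit false

universe u

namespace Pool.Agent.Helper17.PY

theorem ex_aux {K : Type u} [Field K] (t X D q A b w r s : K) (hD : D ≠ 0) (hr : r = b * w ^ 2)
    (hid : t ^ 2 * D ^ 2 + X * D = (t * D + q * A) ^ 2 + q ^ 2 * r * s ^ 2) :
    t ^ 2 + X / D = (t + q * A / D) ^ 2 + b * (q * w * s / D) ^ 2 := by
  field_simp
  linear_combination hid + q ^ 2 * s ^ 2 * hr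

theorem ex_id {K : Type u} [Field K] (t r : K) (h2 : (2 : K) = 0) :
    t ^ 2 * (r ^ 3 + (t ^ 2 + 1) * r ^ 2 + t ^ 2 * r + 1) ^ 2 +
      ((t ^ 2) ^ 2 + t ^ 2 + 1) * (r ^ 2 + r) * (r ^ 3 + (t ^ 2 + 1) * r ^ 2 + t ^ 2 * r + 1) =
    (t * (r ^ 3 + (t ^ 2 + 1) * r ^ 2 + t ^ 2 * r + 1) +
      (t ^ 2 + t + 1) * (r * (t * r + t + 1))) ^ 2 +
      (t ^ 2 + t + 1) ^ 2 * r * (r ^ 2 + r + 1) ^ 2 := by
  linear_combination (-1*t^6*r^4 - 2*t^6*r^3 - 1*t^6*r^2 - 2*t^5*r^4 - 6*t^5*r^3 - 4*t^5*r^2 -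
    1*t^4*r^5 - 4*t^4*r^4 - 9*t^4*r^3 - 7*t^4*r^2 - 1*t^4*r^1 - 2*t^3*r^5 - 6*t^3*r^4 -
    11*t^3*r^3 - 9*t^3*r^2 - 3*t^3*r^1 - 2*t^2*r^5 - 5*t^2*r^4 - 8*t^2*r^3 - 7*t^2*r^2 -
    3*t^2*r^1 - 1*t^1*r^5 - 3*t^1*r^4 - 5*t^1*r^3 - 4*t^1*r^2 - 2*t^1*r^1 - 1*r^3 - 1*r^2) * h2

open Polynomial in
theorem st_EX2 : Pool.Agent.Helper75.PY.ST_EX2.{u} := by
  intro K _ _ t b h2 hζ hb
  have hD : (X ^ 3 + C (t ^ 2 + 1) * X ^ 2 + C (t ^ 2) * X + 1 : K[X]) ≠ 0 := by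
    intro h
    have h1 := congrArg (Polynomial.eval 0) h
    simp at h1
  have hN : (C (t ^ 2) * X ^ 3 + X ^ 2 + C (t ^ 2 + 1) * X + C (t ^ 2) : K[X]) ≠ 0 := by
    intro h
    have h1 := congrArg (fun p : K[X] => p.coeff 2) h
    simp only [Polynomial.coeff_add, Polynomial.coeff_C_mul, Polynomial.coeff_X_pow,
      Polynomial.coeff_X, Polynomial.coeff_C, Polynomial.coeff_zero] at h1
    norm_num at h1
  have hF : ((X * (X ^ 3 + C (t ^ 2 + 1) * X ^ 2 + C (t ^ 2) * X + 1)) *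
      (C (t ^ 2) * X ^ 3 + X ^ 2 + C (t ^ 2 + 1) * X + C (t ^ 2)) : K[X]) ≠ 0 :=
    mul_ne_zero (mul_ne_zero Polynomial.X_ne_zero hD) hN
  have hfin := Polynomial.finite_setOf_isRoot hF
  have hinj : Function.Injective (fun w : K => b * w ^ 2) := by
    intro w v hwv
    have h1 : w ^ 2 = v ^ 2 := mul_left_cancel₀ hb hwv
    have h3 : (w - v) ^ 2 = 0 := by linear_combination h1 + (v ^ 2 - w * v) * h2
    exact sub_eq_zero.1 (pow_eq_zero_iff (two_ne_zero) |>.1 h3)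
  obtain ⟨w, hw⟩ := (hfin.preimage (hinj.injOn)).exists_notMem
  simp only [Set.mem_preimage, Set.mem_ofPred_eq, Polynomial.IsRoot.def, Polynomial.eval_mul,
    Polynomial.eval_add, Polynomial.eval_pow, Polynomial.eval_X, Polynomial.eval_C,
    Polynomial.eval_one, mul_eq_zero, not_or] at hw
  obtain ⟨r, hr⟩ : ∃ r : K, r = b * w ^ 2 := ⟨_, rfl⟩
  rw [← hr] at hw
  obtain ⟨⟨hr0, hDr⟩, hNr⟩ := hw
  have hw0 : w ≠ 0 := by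
    intro h
    apply hr0.2
    rw [h]
    ring
  have hid := ex_id t r h2
  have hmain := ex_aux t (((t ^ 2) ^ 2 + t ^ 2 + 1) * (r ^ 2 + r))
    (r ^ 3 + (t ^ 2 + 1) * r ^ 2 + t ^ 2 * r + 1) (t ^ 2 + t + 1) (r * (t * r + t + 1)) b w r
    (r ^ 2 + r + 1) hDr hr hid
  refine ⟨r, t + (t ^ 2 + t + 1) * (r * (t * r + t + 1)) /
    (r ^ 3 + (t ^ 2 + 1) * r ^ 2 + t ^ 2 * r + 1),
    (t ^ 2 + t + 1) * w * (r ^ 2 + r + 1) / (r ^ 3 + (t ^ 2 + 1) * r ^ 2 + t ^ 2 * r + 1),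
    hDr, ?_, ?_, hmain⟩
  · exact div_ne_zero (mul_ne_zero (mul_ne_zero (hζ t) hw0) (hζ r)) hDr
  · rw [← hmain]
    have h4 : t ^ 2 + ((t ^ 2) ^ 2 + t ^ 2 + 1) * (r ^ 2 + r) /
        (r ^ 3 + (t ^ 2 + 1) * r ^ 2 + t ^ 2 * r + 1) =
        (t ^ 2 * r ^ 3 + r ^ 2 + (t ^ 2 + 1) * r + t ^ 2) /
        (r ^ 3 + (t ^ 2 + 1) * r ^ 2 + t ^ 2 * r + 1) := by
      rw [eq_div_iff hDr, add_mul, div_mul_cancel₀ _ hDr]
      linear_combination (1*t^4*r^2 + 1*t^4*r^1 + 1*t^2*r^2) * h2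
    rw [h4]
    exact div_ne_zero hNr hDr

end Pool.Agent.Helper17.PY
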